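import Mathlib

namespace Pool.Agent.H.MP_4f027a_co

open Finset

/-- a wiring diagram: at time `t < L` the wires `X t < Y t` cross -/
structure WD (n L : ℕ) where
  X : ℕ → Fin n
  Y : ℕ → Fin n
  pos : ℕ → Fin n → ℕ
  inj : ∀ t u v, pos t u = pos t v → u = v
  zero : ∀ u, pos 0 u = u
  lt : ∀ t < L, X t < Y t
  adj : ∀ t < L, pos t (Y t) = pos t (X t) + 1
  sX : ∀ t < L, pos (t + 1) (X t) = pos t (Y t)
  sY : ∀ t < L, pos (t + 1) (Y t) = pos t (X t)
  sZ : ∀ t < L, ∀ z, z ≠ X t → z ≠ Y t → pos (t + 1) z = pos t z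

variable {n L : ℕ} (W : WD n L)

lemma WD.ne (t : ℕ) {u v : Fin n} (h : u ≠ v) : W.pos t u ≠ W.pos t v := fun k => h (W.inj _ _ _ k)

lemma WD.step {t : ℕ} (ht : t < L) {u v : Fin n} (h1 : ¬ (u = W.X t ∧ v = W.Y t))
    (h2 : ¬ (u = W.Y t ∧ v = W.X t)) :
    W.pos (t + 1) u < W.pos (t + 1) v ↔ W.pos t u < W.pos t v := by
  have a := W.adj t ht; have b := W.sX t ht; have c := W.sY t ht
  have d := W.sZ t ht u; have e := W.sZ t ht v
  have := @W.ne _ _ t u (W.X t); have := @W.ne _ _ t u (W.Y t)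
  have := @W.ne _ _ t v (W.X t); have := @W.ne _ _ t v (W.Y t)
  by_cases p : u = W.X t <;> by_cases q : u = W.Y t <;> by_cases r : v = W.X t <;>
    by_cases s : v = W.Y t <;> simp_all <;> omega

lemma WD.bef {u v : Fin n} (h : u < v) : ∀ t ≤ L,
    W.pos t v < W.pos t u ↔ ∃ s < t, W.X s = u ∧ W.Y s = v := by
  intro t
  induction t with
  | zero => intro _; simp [W.zero, h.le]
  | succ t ih =>
    intro ht
    by_cases c : W.X t = u ∧ W.Y t = v
    · refine iff_of_true ?_ ⟨t, by omega, c⟩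
      rw [← c.1, ← c.2, W.sX t ht, W.sY t ht, W.adj t ht]; omega
    · rw [W.step ht (fun k => by have := W.lt t ht; rw [← k.1, ← k.2] at this; omega)
        (fun k => c ⟨k.2.symm, k.1.symm⟩), ih (by omega)]
      refine ⟨fun ⟨s, a, b⟩ => ⟨s, by omega, b⟩, fun ⟨s, a, b⟩ => ⟨s, ?_, b⟩⟩
      by_contra k
      exact c ((show s = t by omega) ▸ b)

lemma WD.mono {u v : Fin n} (h : u < v) {s t : ℕ} (h1 : s ≤ t) (h2 : t ≤ L)
    (k : W.pos s v < W.pos s u) : W.pos t v < W.pos t u := by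
  obtain ⟨r, a, b⟩ := (W.bef h s (by omega)).1 k
  exact (W.bef h t h2).2 ⟨r, by omega, b⟩

lemma WD.after {s t : ℕ} (h1 : s < t) (h2 : t ≤ L) : W.pos t (W.Y s) < W.pos t (W.X s) :=
  (W.bef (W.lt s (by omega)) t h2).2 ⟨s, h1, rfl, rfl⟩

lemma WD.before {s t : ℕ} (h1 : t ≤ s) (h2 : s < L) : W.pos t (W.X s) < W.pos t (W.Y s) := by
  by_contra k
  have := W.mono (W.lt s h2) h1 h2.le
    (lt_of_le_of_ne (not_lt.1 k) (W.ne _ (W.lt s h2).ne'))
  have := W.adj s h2; omega

lemma WD.side {t : ℕ} (ht : t < L) {z : Fin n} (h1 : z ≠ W.X t) (h2 : z ≠ W.Y t) :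
    (W.pos t z < W.pos t (W.X t) ↔ W.pos t z < W.pos t (W.Y t)) := by
  have := W.adj t ht; have := W.ne t h1; omega

lemma WD.find (W' : WD n L) (h : W.pos L = W'.pos L) {t : ℕ} (ht : t < L) :
    ∃ s < L, W'.X s = W.X t ∧ W'.Y s = W.Y t :=
  (W'.bef (W.lt t ht) L le_rfl).1 (h ▸ W.after ht le_rfl)

def In (i k : ℕ) (z : Fin n) : Prop := i ≤ z.val ∧ z.val ≤ k

def WD.Act (i k t : ℕ) (z : Fin n) : Prop :=
  In i k (W.X t) ∧ In i k (W.Y t) ∧ (z = W.X t ∨ z = W.Y t)

open Classical in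
noncomputable def WD.G (a : ℝ) (i k : ℕ) : ℕ → Fin n → ℝ
  | 0, z => if z.val = k then 1 else 0
  | d + 1, z => if W.Act i k (L - (d + 1)) z then
      (1 - a) * G a i k d (W.X (L - (d + 1))) + a * G a i k d (W.Y (L - (d + 1))) else G a i k d z

/-- probability that a particle on wire `z` at time `t` ends on wire `k` -/
noncomputable def WD.F (a : ℝ) (i k t : ℕ) (z : Fin n) : ℝ := W.G a i k (L - t) z

variable {a : ℝ} {i k : ℕ}

lemma WD.F_act {t : ℕ} (ht : t < L) {z : Fin n} (h : W.Act i k t z) :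
    W.F a i k t z = (1 - a) * W.F a i k (t + 1) (W.X t) + a * W.F a i k (t + 1) (W.Y t) := by
  unfold WD.F
  rw [show L - t = L - (t + 1) + 1 by omega, WD.G, show L - (L - (t + 1) + 1) = t by omega, if_pos h]

lemma WD.F_skip {t : ℕ} (ht : t < L) {z : Fin n} (h : ¬ W.Act i k t z) :
    W.F a i k t z = W.F a i k (t + 1) z := by
  unfold WD.F
  rw [show L - t = L - (t + 1) + 1 by omega, WD.G, show L - (L - (t + 1) + 1) = t by omega, if_neg h]

lemma WD.F_end (z : Fin n) : W.F a i k L z = if z.val = k then 1 else 0 := by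
  unfold WD.F; rw [Nat.sub_self, WD.G]

lemma WD.skip {t : ℕ} (ht : t < L) {z u : Fin n} (h : ¬ W.Act i k t z) (hz : In i k z)
    (hu : In i k u) : W.pos (t + 1) u < W.pos (t + 1) z ↔ W.pos t u < W.pos t z :=
  W.step ht (fun c => h ⟨c.1 ▸ hu, c.2 ▸ hz, Or.inr c.2⟩) fun c => h ⟨c.2 ▸ hz, c.1 ▸ hu, Or.inl c.2⟩

lemma WD.act_side {t : ℕ} (ht : t < L) {z z' u : Fin n} (h : W.Act i k t z) (h' : W.Act i k t z')
    (h1 : u ≠ W.X t) (h2 : u ≠ W.Y t) :
    W.pos (t + 1) u < W.pos (t + 1) z' ↔ W.pos t u < W.pos t z := by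
  rw [W.step ht (fun c => h1 c.1) (fun c => h2 c.1)]
  have := W.side ht h1 h2
  rcases h.2.2 with rfl | rfl <;> rcases h'.2.2 with rfl | rfl <;> tauto

lemma WD.F_zero {K : Fin n} (hK : K.val = k) (d : ℕ) : ∀ t, t + d = L → ∀ z, In i k z →
    W.pos t K < W.pos t z → W.F a i k t z = 0 := by
  induction d with
  | zero =>
    intro t ht z _ h
    obtain rfl : t = L := by omega
    rw [W.F_end, if_neg]
    intro c; rw [show z = K from Fin.ext (by omega)] at h; omega
  | succ d ih =>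
    intro t ht z hz h
    have l : t < L := by omega
    have iK : In i k K := ⟨by have := hz.1; have := hz.2; omega, hK.le⟩
    by_cases c : W.Act i k t z
    · have a1 : K ≠ W.X t := fun e => by
        have := W.lt t l; have := c.2.1.2; rw [← e, Fin.lt_def] at *; omega
      have a2 : K ≠ W.Y t := fun e => by
        have := W.adj t l
        rcases c.2.2 with rfl | rfl <;> rw [e] at h <;> omega
      rw [W.F_act l c, ih _ (by omega) _ c.1 ((W.act_side l c ⟨c.1, c.2.1, Or.inl rfl⟩ a1 a2).2 h),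
        ih _ (by omega) _ c.2.1 ((W.act_side l c ⟨c.1, c.2.1, Or.inr rfl⟩ a1 a2).2 h)]
      ring
    · rw [W.F_skip l c, ih _ (by omega) z hz ((W.skip l c hz iK).2 h)]

open Classical in
noncomputable def WD.rem (i k t : ℕ) (K : Fin n) : Finset (Fin n) :=
  {u | In i k u ∧ W.pos t u < W.pos t K ∧ W.pos L K < W.pos L u}

lemma WD.F_top {K : Fin n} (hK : K.val = k) (hi : i ≤ k) (d : ℕ) : ∀ t, t + d = L →
    W.F a i k t K = a ^ #(W.rem i k t K) := by
  have iK : In i k K := ⟨by omega, hK.le⟩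
  induction d with
  | zero =>
    intro t ht
    obtain rfl : t = L := by omega
    have : W.rem i k t K = ∅ := by
      ext u; simp only [WD.rem, mem_filter, notMem_empty, iff_false]; omega
    rw [W.F_end, if_pos hK, this]; simp
  | succ d ih =>
    intro t ht
    have l : t < L := by omega
    by_cases c : W.Act i k t K
    · have e : K = W.Y t := c.2.2.resolve_left fun e => by
        have := W.lt t l; have := c.2.1.2; rw [← e, Fin.lt_def] at *; omega
      have a1 := W.after (Nat.lt_add_one t) l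
      rw [W.F_act l c, W.F_zero hK d _ (by omega) _ c.1 (e ▸ a1), ← e, ih _ (by omega)]
      have : W.rem i k t K = insert (W.X t) (W.rem i k (t + 1) K) := by
        ext u
        simp only [WD.rem, mem_insert, mem_filter, mem_univ, true_and]
        by_cases p : u = W.X t
        · subst p; simp only [true_or, iff_true]
          exact ⟨c.1, e ▸ W.before le_rfl l, e ▸ W.after l le_rfl⟩
        · rw [W.step l (fun k => p k.1) (fun k => (W.lt t l).ne (k.2.symm.trans e))]; simp [p]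
      rw [this, card_insert_of_notMem (by simp only [WD.rem, mem_filter, e]; omega)]; ring
    · rw [W.F_skip l c, ih _ (by omega)]
      congr 2; ext u
      simp only [WD.rem, mem_filter, mem_univ, true_and]
      exact and_congr_right fun hu => by rw [W.skip l c iK hu]

def AG (W W' : WD n L) (i k : ℕ) : Prop := ∀ t < L, ∀ s < L, W'.X s = W.X t → W'.Y s = W.Y t →
  In i k (W.X t) → In i k (W.Y t) → ∀ z, In i k z →
    (W.pos t z < W.pos t (W.X t) ↔ W'.pos s z < W'.pos s (W.X t))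

variable {W} {W' : WD n L}

lemma AG.symm (h : AG W W' i k) : AG W' W i k := fun t ht s hs a b c d z hz =>
  a ▸ (h s hs t ht a.symm b.symm (a ▸ c) (b ▸ d) z hz).symm

def Sync (W W' : WD n L) (i k t s : ℕ) (z : Fin n) : Prop :=
  ∀ u, In i k u → (W.pos t u < W.pos t z ↔ W'.pos s u < W'.pos s z)

/-- two active crossings on a synchronised wire coincide -/
lemma same (hL : W.pos L = W'.pos L) {i' k' : ℕ} (h : AG W W' i' k') {t s : ℕ} (ht : t < L)
    (hs : s < L) {z : Fin n} (sy : Sync W W' i k t s z) (a1 : W.Act i k t z) (a2 : W'.Act i' k' s z)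
    (a3 : W'.Act i k s z) (a4 : W.Act i' k' t z) : W'.X s = W.X t ∧ W'.Y s = W.Y t := by
  obtain ⟨r, hr, e1, e2⟩ := W.find W' hL ht
  have b1 := W.before le_rfl ht
  have b2 := W'.before le_rfl hs
  have sr : s ≤ r := by
    by_contra c
    have := W'.after (not_le.1 c) hs.le
    rw [e1, e2] at this
    rcases a1.2.2 with rfl | rfl
    · have := sy _ a1.2.1; omega
    · have := sy _ a1.1; omega
  rcases sr.eq_or_lt with rfl | sr
  · exact ⟨e1, e2⟩
  exfalso
  have b3 := W'.after sr hr.le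
  have ne : ¬ (W'.X s = W'.X r ∧ W'.Y s = W'.Y r) := fun c => by
    have := W'.before le_rfl hr; rw [c.1, c.2] at b3; omega
  have l1 := W'.lt s hs
  have l2 := W'.lt r hr
  have key : ∀ u, In i' k' u → u ≠ W.X t → u ≠ W.Y t →
      (W.pos t u < W.pos t z ↔ W'.pos r u < W'.pos r z) := by
    intro u hu n1 n2
    have := h t ht r hr e1 e2 a4.1 a4.2.1 u hu
    have := W.side ht n1 n2
    have := W'.side hr (e1 ▸ n1) (e2 ▸ n2)
    rw [e1, e2] at this
    rcases a1.2.2 with rfl | rfl <;> tauto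
  have a5 := a1.2.2
  rw [← e1, ← e2] at a5 key
  rcases a2.2.2 with rfl | rfl
  · have := key _ a2.2.1 (by rcases a5 with c | c <;> omega) (by rcases a5 with c | c <;> omega)
    have := sy _ a3.2.1; omega
  · have := key _ a2.1 (by rcases a5 with c | c <;> omega) (by rcases a5 with c | c <;> omega)
    have := sy _ a3.1; omega

lemma sync_step {t s : ℕ} (ht : t < L) (hs : s < L) {z z' : Fin n} (sy : Sync W W' i k t s z)
    (a1 : W.Act i k t z) (e : W'.X s = W.X t ∧ W'.Y s = W.Y t) (a2 : W.Act i k t z') :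
    Sync W W' i k (t + 1) (s + 1) z' := by
  intro u hu
  have b1 : W'.Act i k s z := by unfold WD.Act; rw [e.1, e.2]; exact a1
  have b2 : W'.Act i k s z' := by unfold WD.Act; rw [e.1, e.2]; exact a2
  have c1 := W.after (Nat.lt_add_one t) ht
  have c2 := W'.after (Nat.lt_add_one s) hs
  rw [e.1, e.2] at c2
  by_cases p : u = W.X t
  · rcases a2.2.2 with rfl | rfl <;> subst p <;> omega
  by_cases q : u = W.Y t
  · rcases a2.2.2 with rfl | rfl <;> subst q <;> omega
  rw [W.act_side ht a1 a2 p q, W'.act_side hs b1 b2 (e.1 ▸ p) (e.2 ▸ q), sy u hu]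

lemma act_up {W : WD n L} {I z : Fin n} (hI : I.val = i) {t : ℕ} (ht : t < L) (a1 : W.Act i k t z)
    (h : W.pos t z < W.pos t I) : W.Act (i + 1) k t z ∧ I ≠ W.X t ∧ I ≠ W.Y t := by
  have l := W.lt t ht
  have := W.adj t ht
  have n1 : I ≠ W.X t := fun e => by rcases a1.2.2 with rfl | rfl <;> rw [e] at h <;> omega
  obtain ⟨⟨b1, b2⟩, ⟨b3, b4⟩, b5⟩ := a1
  rw [ne_eq, Fin.ext_iff] at n1
  rw [Fin.lt_def] at l
  exact ⟨⟨⟨by omega, b2⟩, ⟨by omega, b4⟩, b5⟩, fun e => n1 (by rw [e]), fun e => by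
    rw [← e] at l; omega⟩

lemma no_act (hL : W.pos L = W'.pos L) {s : ℕ} (hs : s < L) {z : Fin n}
    (sy : Sync W W' i k L s z) : ¬ W'.Act i k s z := fun c => by
  have b1 := W'.after hs le_rfl
  have b2 := W'.before le_rfl hs
  rw [← hL] at b1
  rcases c.2.2 with rfl | rfl
  · have := sy _ c.2.1; omega
  · have := sy _ c.1; omega

lemma bis (hL : W.pos L = W'.pos L) (h : AG W W' (i + 1) k) {I : Fin n} (hI : I.val = i)
    (hik : i ≤ k) (d : ℕ) : ∀ t ≤ L, ∀ s ≤ L, L - t + (L - s) = d → ∀ z, In i k z →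
    W.pos t z < W.pos t I → Sync W W' i k t s z → W.F a i k t z = W'.F a i k s z := by
  have iI : In i k I := ⟨hI.ge, by omega⟩
  induction d using Nat.strong_induction_on with
  | _ d ih =>
  intro t ht s hs e z hz l sy
  have nz : z ≠ I := fun c => by rw [c] at l; omega
  have fl : ∀ {W : WD n L} {t}, ¬ W.pos t I < W.pos t z ↔ W.pos t z < W.pos t I := by
    intro W t; have := W.ne t nz; omega
  by_cases c1 : t < L ∧ ¬ W.Act i k t z
  · rw [W.F_skip c1.1 c1.2]
    exact ih _ (by omega) _ c1.1 s hs rfl z hz (by rw [← fl, W.skip c1.1 c1.2 hz iI, fl]; exact l)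
      fun u hu => by rw [W.skip c1.1 c1.2 hz hu, sy u hu]
  by_cases c2 : s < L ∧ ¬ W'.Act i k s z
  · rw [W'.F_skip c2.1 c2.2]
    exact ih _ (by omega) _ ht _ c2.1 rfl z hz l fun u hu => by rw [W'.skip c2.1 c2.2 hz hu, sy u hu]
  push Not at c1 c2
  rcases ht.eq_or_lt with rfl | ht
  · rcases hs.eq_or_lt with rfl | hs
    · rw [W.F_end, W'.F_end]
    · exact (no_act hL hs sy (c2 hs)).elim
  rcases hs.eq_or_lt with rfl | hs
  · exact (no_act hL.symm ht (fun u hu => (sy u hu).symm) (c1 ht)).elim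
  have l' : W'.pos s z < W'.pos s I := by rw [← fl, ← sy I iI, fl]; exact l
  obtain ⟨u1, n1, n2⟩ := act_up hI ht (c1 ht) l
  have e' := same hL h ht hs sy (c1 ht) (act_up hI hs (c2 hs) l').1 (c2 hs) u1
  have k1 : ∀ z', W.Act i k t z' → In i k z' → W.F a i k (t + 1) z' = W'.F a i k (s + 1) z' := by
    intro z' a2 iz
    refine ih _ (by omega) _ ht _ hs rfl z' iz ?_ (sync_step ht hs sy (c1 ht) e' a2)
    have := W.act_side ht (c1 ht) a2 n1 n2
    have := W.ne (t + 1) (u := I) (v := z') (by rcases a2.2.2 with rfl | rfl <;> assumption)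
    show W.pos (t + 1) z' < W.pos (t + 1) I
    omega
  rw [W.F_act ht (c1 ht), W'.F_act hs (c2 hs), e'.1, e'.2,
    k1 _ ⟨(c1 ht).1, (c1 ht).2.1, Or.inl rfl⟩ (c1 ht).1,
    k1 _ ⟨(c1 ht).1, (c1 ht).2.1, Or.inr rfl⟩ (c1 ht).2.1]

end Pool.Agent.H.MP_4f027a_co
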