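import Mathlib
import Pool.Agent.H.MP_4f027a_co.A

namespace Pool.Agent.H.MP_4f027a_co

open Finset

variable {n L : ℕ} {W W' : WD n L} {a : ℝ} {i k : ℕ}

lemma F_cross {J K : Fin n} (hK : K.val = k) {r : ℕ} (hr : r < L) (hX : W.X r = J) (hY : W.Y r = K)
    (hJ : In i k J) {z : Fin n} (hz : z = J ∨ z = K) :
    W.F a i k r z = a * a ^ #(W.rem i k (r + 1) K) := by
  have iK : In i k K := ⟨by have := hJ.1; have := hJ.2; omega, hK.le⟩
  have := W.after (Nat.lt_add_one r) hr
  rw [W.F_act hr ⟨hX ▸ hJ, hY ▸ iK, hX ▸ hY ▸ hz⟩, hX, hY,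
    W.F_zero hK (L - (r + 1)) _ (by omega) J hJ (hX ▸ hY ▸ this),
    W.F_top hK (hJ.1.trans hJ.2) (L - (r + 1)) _ (by omega)]
  ring

lemma tri (ha : 0 < a) (ha1 : a < 1) {J K : Fin n} (hK : K.val = k) {t r : ℕ} (hr : r < L)
    (hX : W.X r = J) (hY : W.Y r = K) (hJ : In i k J)
    (no : ∀ τ, t < τ → τ < r → ¬ W.Act i k τ J) (d : ℕ) : ∀ τ, τ + d = r → t < τ →
    ∀ z, In i k z → ¬ W.pos τ z < W.pos τ J → W.F a i k τ z ≤ W.F a i k r J := by
  induction d with
  | zero =>
    intro τ e _ z hz h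
    obtain rfl : τ = r := by omega
    by_cases c : z = J ∨ z = K
    · rw [F_cross hK hr hX hY hJ c, F_cross hK hr hX hY hJ (Or.inl rfl)]
    · push Not at c
      have := W.adj τ hr
      have := W.ne τ c.1
      have := W.ne τ c.2
      rw [W.F_zero hK (L - τ) _ (by omega) z hz (by rw [hX, hY] at *; omega),
        F_cross hK hr hX hY hJ (Or.inl rfl)]
      positivity
  | succ d ih =>
    intro τ e h1 z hz h
    have l : τ < L := by omega
    have nJ := no τ h1 (by omega)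
    have k1 : ∀ u, In i k u → ¬ W.pos τ u < W.pos τ J → W.F a i k (τ + 1) u ≤ W.F a i k r J :=
      fun u hu h => ih _ (by omega) (by omega) u hu (by rwa [W.skip l nJ hJ hu])
    by_cases c : W.Act i k τ z
    · have n1 : W.X τ ≠ J := fun e => nJ ⟨c.1, c.2.1, Or.inl e.symm⟩
      have n2 : W.Y τ ≠ J := fun e => nJ ⟨c.1, c.2.1, Or.inr e.symm⟩
      have := W.adj τ l
      have := W.ne τ n1
      have := W.ne τ n2
      have b1 := k1 _ c.1 (by rcases c.2.2 with rfl | rfl <;> omega)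
      have b2 := k1 _ c.2.1 (by rcases c.2.2 with rfl | rfl <;> omega)
      rw [W.F_act l c]; nlinarith
    · rw [W.F_skip l c]; exact k1 z hz h

lemma act_low {I : Fin n} (hI : I.val = i) {t : ℕ} (ht : t < L) (h : W.Act i k t I) : W.X t = I :=
  (h.2.2.resolve_right fun e => by
    have := W.lt t ht; have := h.1.1; rw [← e, Fin.lt_def] at *; omega).symm

lemma act_dn {I K : Fin n} (hI : I.val = i) (hK : K.val = k) {t s : ℕ} (h1 : t < s) (hs : s < L)
    (hX : W.X s = I) (hY : W.Y s = K) (h : W.Act i k t I) : W.Act i (k - 1) t I ∧ W.Y t ≠ K := by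
  have e := act_low hI (by omega) h
  have n : W.Y t ≠ K := fun c => by
    have := W.after h1 hs.le; have := W.before le_rfl hs; rw [hX, hY, e, c] at *; omega
  have := W.lt t (by omega)
  have := h.2.1
  rw [ne_eq, Fin.ext_iff] at n
  refine ⟨⟨?_, ?_, h.2.2⟩, fun c => n (by rw [c])⟩ <;> unfold In at * <;> rw [Fin.lt_def, e] at * <;>
    omega

lemma strict (ha : 0 < a) (ha1 : a < 1) {I J K : Fin n} (hI : I.val = i) (hK : K.val = k)
    {t s r : ℕ} (hr : r < L) (hsr : s < r) (hts : t < s) (hX : W.X r = J) (hY : W.Y r = K)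
    (hJ : In i k J) (sX : W.X s = I) (sY : W.Y s = K) (tX : W.X t = I) (tY : W.Y t = J)
    (no : ∀ τ, t < τ → τ < r → ¬ W.Act i k τ J) (d : ℕ) : ∀ τ, τ + d = s → t < τ →
    W.F a i k τ I < W.F a i k r J := by
  have iI : In i k I := ⟨hI.ge, by have := hJ.1; have := hJ.2; omega⟩
  have iK : In i k K := ⟨by have := hJ.1; have := hJ.2; omega, hK.le⟩
  have pos : 0 < W.F a i k r J := by rw [F_cross hK hr hX hY hJ (Or.inl rfl)]; positivity
  induction d with
  | zero =>
    intro τ e h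
    obtain rfl : τ = s := by omega
    have l : τ < L := by omega
    have b := tri ha ha1 hK hr hX hY hJ no (r - (τ + 1)) (τ + 1) (by omega) (by omega) K iK (by
      have := W.before (t := τ + 1) hsr hr; rw [hX, hY] at this; omega)
    have := W.after (Nat.lt_add_one τ) l
    rw [W.F_act l ⟨sX ▸ iI, sY ▸ iK, Or.inl sX.symm⟩, sX, sY,
      W.F_zero hK (L - (τ + 1)) _ (by omega) I iI (sX ▸ sY ▸ this)]
    nlinarith
  | succ d ih =>
    intro τ e h
    have l : τ < L := by omega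
    have b := ih (τ + 1) (by omega) (by omega)
    by_cases c : W.Act i k τ I
    · have e1 := act_low hI l c
      have nJ := no τ h (by omega)
      have b2 := tri ha ha1 hK hr hX hY hJ no (r - (τ + 1)) (τ + 1) (by omega) (by omega) _ c.2.1 (by
        rw [W.skip l nJ hJ c.2.1]
        have := W.after h l.le; have := W.adj τ l; rw [tX, tY, e1] at *; omega)
      rw [W.F_act l c, e1]; nlinarith
    · rwa [W.F_skip l c]

lemma ag_any (h : AG W W' i k) (hL : W'.pos L = W.pos L) {τ : ℕ} (l : τ < L) {J z : Fin n}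
    (c : W'.Act i k τ J) (hz : In i k z) (n1 : z ≠ W'.X τ) (n2 : z ≠ W'.Y τ) :
    ∃ σ < L, W.X σ = W'.X τ ∧ W.Y σ = W'.Y τ ∧
      (W.pos σ z < W.pos σ J ↔ W'.pos τ z < W'.pos τ J) := by
  obtain ⟨σ, h1, e1, e2⟩ := W'.find W hL l
  refine ⟨σ, h1, e1, e2, ?_⟩
  have := h.symm τ l σ h1 e1 e2 c.1 c.2.1 z hz
  have := W'.side l n1 n2
  have := W.side h1 (e1 ▸ n1) (e2 ▸ n2)
  rw [e1, e2] at this
  rcases c.2.2 with rfl | rfl <;> tauto

lemma WD.uniq (W : WD n L) {s t : ℕ} (hs : s < L) (ht : t < L) (h1 : W.X s = W.X t)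
    (h2 : W.Y s = W.Y t) : s = t := by
  have := W.before le_rfl hs
  have := W.before le_rfl ht
  rcases lt_trichotomy s t with c | c | c
  · have := W.after c ht.le; rw [h1, h2] at *; omega
  · exact c
  · have := W.after c hs.le; rw [h1, h2] at *; omega

lemma final (hL : W.pos L = W'.pos L) (h1 : AG W W' (i + 1) k) (h2 : AG W W' i (k - 1))
    (ha : 0 < a) (ha1 : a < 1) {I K : Fin n} (hI : I.val = i) (hK : K.val = k) {s s' t' : ℕ}
    (hs : s < L) (hs' : s' < L) (sX : W.X s = I) (sY : W.Y s = K) (sX' : W'.X s' = I)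
    (sY' : W'.Y s' = K) (ht : t' < s') (c : W'.Act i k t' I) (sy : Sync W W' i k s t' I) :
    W'.F a i k t' I < W.F a i k s I := by
  have l : t' < L := by omega
  have e1 := act_low hI l c
  obtain ⟨-, nK⟩ := act_dn hI hK ht hs' sX' sY' c
  obtain ⟨J, hJ⟩ : ∃ J, W'.Y t' = J := ⟨_, rfl⟩
  have iJ : In i k J := hJ ▸ c.2.1
  have iI : In i k I := e1 ▸ c.1
  have IJ : I < J := by have := W'.lt t' l; rwa [e1, hJ] at this
  have JK : J < K := by
    have := iJ.2; rw [hJ, ne_eq, Fin.ext_iff] at nK; rw [Fin.lt_def]; omega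
  have b1 : ¬ W.pos s J < W.pos s I := by
    rw [sy J iJ]; have := W'.before le_rfl l; rw [e1, hJ] at this; omega
  have b2 : W.pos s K < W.pos s J := by
    have := W.adj s hs; have := W.ne s JK.ne; have := W.ne s IJ.ne; rw [sX, sY] at *; omega
  obtain ⟨r, hr, rX, rY⟩ := (W.bef JK s hs.le).1 b2
  obtain ⟨r', hr', rX', rY'⟩ := W.find W' hL (t := r) (by omega)
  rw [rX] at rX'; rw [rY] at rY'
  have b3 : s' < r' := by
    by_contra k
    have a1 := W'.after ht hs'.le
    have a2 := W'.adj s' hs'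
    rcases (not_lt.1 k).eq_or_lt with rfl | k
    · exact IJ.ne (sX'.symm.trans rX')
    · have := W'.after k hs'.le
      rw [rX', rY', sX', sY', e1, hJ] at *; omega
  have no : ∀ τ, t' < τ → τ < r' → ¬ W'.Act i k τ J := by
    intro τ t1 t2 c'
    have l' : τ < L := by omega
    have a1 := W'.after t1 l'.le
    have a2 := W'.before t2.le hr'
    have a3 := W'.lt τ l'
    have a4 := W'.before le_rfl l'
    rw [e1, hJ] at a1; rw [rX', rY'] at a2
    have u1 := act_up hI l' c' a1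
    have n1 : K ≠ W'.X τ := fun e => by
      have := c'.2.1.2; rw [← e, Fin.lt_def] at a3; omega
    have n2 : K ≠ W'.Y τ := fun e => by
      have : W'.X τ = J := (c'.2.2.resolve_right fun e' => JK.ne (e'.trans e.symm)).symm
      have := W'.uniq l' hr' (this.trans rX'.symm) (e.symm.trans rY'.symm)
      omega
    have u2 : W'.Act i (k - 1) τ J := by
      refine ⟨?_, ?_, c'.2.2⟩ <;> have := c'.1 <;> have := c'.2.1 <;> unfold In at * <;>
        rw [ne_eq, Fin.ext_iff] at n1 n2 <;> omega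
    obtain ⟨σ, s1, s2, s3, s4⟩ := ag_any h1 hL.symm l' u1.1 (z := K)
      ⟨by rw [Fin.lt_def] at IJ JK; omega, hK.le⟩ n1 n2
    obtain ⟨σ', s1', s2', s3', s4'⟩ := ag_any h2 hL.symm l' u2 (z := I)
      ⟨hI.ge, by rw [Fin.lt_def] at IJ JK; omega⟩ u1.2.1 u1.2.2
    obtain rfl : σ = σ' := W.uniq s1 s1' (s2.trans s2'.symm) (s3.trans s3'.symm)
    have := W.ne σ IJ.ne
    rcases le_total σ s with k | k
    · have := W.mono IJ k hs.le (by omega); omega
    · have := W.mono JK k s1.le b2; omega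
  have d1 := strict ha ha1 hI hK hr' b3 ht rX' rY' iJ sX' sY' e1 hJ no (s' - (t' + 1)) (t' + 1)
    (by omega) (by omega)
  have d2 := tri ha ha1 hK hr' rX' rY' iJ no (r' - (t' + 1)) (t' + 1) (by omega) (by omega) J iJ
    (lt_irrefl _)
  have d3 : W'.F a i k r' J ≤ W.F a i k s I := by
    rw [F_cross hK hr' rX' rY' iJ (Or.inl rfl), F_cross hK hs sX sY iI (Or.inl rfl)]
    refine mul_le_mul_of_nonneg_left (pow_le_pow_of_le_one ha.le ha1.le (card_le_card ?_)) ha.le
    intro u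
    simp only [WD.rem, mem_filter, mem_univ, true_and, ← hL]
    rintro ⟨iu, p1, p2⟩
    refine ⟨iu, ?_, p2⟩
    have nK : u ≠ K := fun e => by rw [e] at p1; omega
    have uK : u < K := by have := iu.2; rw [ne_eq, Fin.ext_iff] at nK; rw [Fin.lt_def]; omega
    have nI : u ≠ I := fun e => by
      have := W.after (Nat.lt_add_one s) hs; rw [e] at p1; rw [sX, sY] at this; omega
    have nJ : u ≠ J := fun e => by
      have := W.mono JK (Nat.le_add_right s 1) hs b2; rw [e] at p1; omega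
    have q1 : W.pos r u < W.pos r K := by
      have := W.ne r nK
      by_contra k
      have := W.mono uK (show r ≤ s + 1 by omega) hs (by omega); omega
    have i1 : ∀ v, In i k v → v ≠ I → In (i + 1) k v := fun v hv nv => by
      unfold In at *; rw [ne_eq, Fin.ext_iff] at nv; omega
    have q2 := h1 r (by omega) r' hr' (rX'.trans rX.symm) (rY'.trans rY.symm)
      (rX ▸ i1 J iJ IJ.ne') (rY ▸ i1 K (sY ▸ ⟨by rw [sY]; have := iJ.1; have := iJ.2; omega,
        by rw [sY]; omega⟩) (IJ.trans JK).ne') u (i1 u iu nI)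
    have q3 := W.side (t := r) (by omega) (rX ▸ nJ) (rY ▸ nK)
    have q4 := W'.side hr' (rX' ▸ nJ) (rY' ▸ nK)
    rw [W'.step hr' (fun e => nJ (e.1.trans rX')) (fun e => nK (e.1.trans rY'))]
    rw [rX, rY] at *
    rw [rX', rY'] at q4
    tauto
  rw [W'.F_act l c, e1, hJ]; nlinarith

lemma mainlt (hL : W.pos L = W'.pos L) (h1 : AG W W' (i + 1) k) (h2 : AG W W' i (k - 1))
    (ha : 0 < a) (ha1 : a < 1) {I K : Fin n} (hI : I.val = i) (hK : K.val = k) {s s' : ℕ}
    (hs : s < L) (hs' : s' < L) (sX : W.X s = I) (sY : W.Y s = K) (sX' : W'.X s' = I)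
    (sY' : W'.Y s' = K) (sub : ∀ u, In i k u → W.pos s u < W.pos s I → W'.pos s' u < W'.pos s' I)
    (ne : ¬ Sync W W' i k s s' I) (d : ℕ) : ∀ t ≤ s, ∀ t' ≤ s', s - t + (s' - t') = d →
    Sync W W' i k t t' I → W'.F a i k t' I < W.F a i k t I := by
  have hik : i < k := by have := W.lt s hs; rw [sX, sY, Fin.lt_def] at this; omega
  have iI : In i k I := ⟨hI.ge, by omega⟩
  have iK : In i k K := ⟨by omega, hK.le⟩
  induction d using Nat.strong_induction_on with
  | _ d ih =>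
  intro t ht t' ht' e sy
  have l : t < L := by omega
  have l' : t' < L := by omega
  by_cases c1 : W.Act i k t I
  swap
  · have : t ≠ s := by rintro rfl; exact c1 ⟨sX ▸ iI, sY ▸ iK, Or.inl sX.symm⟩
    rw [W.F_skip l c1]
    exact ih _ (by omega) (t + 1) (by omega) t' ht' rfl fun u hu => by
      rw [W.skip l c1 iI hu, sy u hu]
  by_cases c2 : W'.Act i k t' I
  swap
  · have : t' ≠ s' := by rintro rfl; exact c2 ⟨sX' ▸ iI, sY' ▸ iK, Or.inl sX'.symm⟩
    rw [W'.F_skip l' c2]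
    exact ih _ (by omega) t ht (t' + 1) (by omega) rfl fun u hu => by
      rw [W'.skip l' c2 iI hu, sy u hu]
  rcases ht.eq_or_lt with rfl | ht
  · exact final hL h1 h2 ha ha1 hI hK hs hs' sX sY sX' sY'
      (lt_of_le_of_ne ht' (by rintro rfl; exact ne sy)) c2 sy
  have e1 := act_low hI l c1
  have ht' : t' < s' := lt_of_le_of_ne ht' (by
    rintro rfl
    have a1 := W.after ht hs.le
    have a2 := W.before le_rfl l
    rw [e1] at a1 a2
    have := (sy _ c1.2.1).2 (sub _ c1.2.1 a1); omega)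
  have e' := same hL h2 l l' sy c1 (act_dn hI hK ht' hs' sX' sY' c2).1 c2
    (act_dn hI hK ht hs sX sY c1).1
  have b1 := ih _ (by omega) (t + 1) ht (t' + 1) ht' rfl (sync_step l l' sy c1 e' c1)
  have b2 := bis (a := a) hL h1 hI hik.le _ (t + 1) l (t' + 1) l' rfl _ c1.2.1
    (e1 ▸ W.after (Nat.lt_add_one t) l) (sync_step l l' sy c1 e' ⟨c1.1, c1.2.1, Or.inr rfl⟩)
  rw [W.F_act l c1, W'.F_act l' c2, e'.1, e'.2, e1, b2]; nlinarith

lemma sync_top (hL : W.pos L = W'.pos L) (h1 : AG W W' (i + 1) k) (h2 : AG W W' i (k - 1))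
    (ha : 0 < a) (ha1 : a < 1) {I K : Fin n} (hI : I.val = i) (hK : K.val = k) {s s' : ℕ}
    (hs : s < L) (hs' : s' < L) (sX : W.X s = I) (sY : W.Y s = K) (sX' : W'.X s' = I)
    (sY' : W'.Y s' = K) (hF : W.F a i k 0 I = W'.F a i k 0 I) : Sync W W' i k s s' I := by
  by_contra ne
  have z : Sync W W' i k 0 0 I := fun u _ => by rw [W.zero, W.zero, W'.zero, W'.zero]
  by_cases c : ∀ u, In i k u → W.pos s u < W.pos s I → W'.pos s' u < W'.pos s' I
  · have := mainlt hL h1 h2 ha ha1 hI hK hs hs' sX sY sX' sY' c ne _ 0 (by omega) 0 (by omega) rfl z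
    linarith
  by_cases c' : ∀ u, In i k u → W'.pos s' u < W'.pos s' I → W.pos s u < W.pos s I
  · have := mainlt hL.symm h1.symm h2.symm ha ha1 hI hK hs' hs sX' sY' sX sY c'
      (fun k => ne fun u hu => (k u hu).symm) _ 0 (by omega) 0 (by omega) rfl
      fun u hu => (z u hu).symm
    linarith
  push Not at c c'
  obtain ⟨u, iu, u1, u2⟩ := c
  obtain ⟨v, iv, v1, v2⟩ := c'
  have lt : ∀ w, In i k w → w ≠ I → I < w := fun w hw nw => by
    have := hw.1; rw [ne_eq, Fin.ext_iff] at nw; rw [Fin.lt_def]; omega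
  have Iu := lt u iu (by rintro rfl; omega)
  have Iv := lt v iv (by rintro rfl; omega)
  have i1 : ∀ w, In i k w → w ≠ K → In i (k - 1) w := fun w hw nw => by
    unfold In at *; rw [ne_eq, Fin.ext_iff] at nw; omega
  have b := W.before le_rfl hs
  have b' := W'.before le_rfl hs'
  rw [sX, sY] at b; rw [sX', sY'] at b'
  obtain ⟨t, t1, t2, t3⟩ := (W.bef Iu s hs.le).1 u1
  obtain ⟨t', t1', t2', t3'⟩ := W.find W' hL (t := t) (by omega)
  have := h2 t (by omega) t' t1' t2' t3' (t2 ▸ i1 I ⟨hI.ge, by have := iu.1; have := iu.2; omega⟩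
    (by rintro rfl; omega)) (t3 ▸ i1 u iu (by rintro rfl; omega)) v (i1 v iv (by rintro rfl; omega))
  rw [t2] at this t2'; rw [t3] at t3'
  have c1 : ¬ W.pos t v < W.pos t I := fun k => by have := W.mono Iv t1.le hs.le k; omega
  have c2 : s' ≤ t' := by
    by_contra k
    have := W'.after (not_le.1 k) hs'.le; rw [t2', t3'] at this; omega
  exact c1 (this.2 (W'.mono Iv c2 t1'.le v1))

/-- transfer of an inversion status through the top crossing -/
lemma trans_side (hL : W.pos L = W'.pos L) {I K : Fin n} (IK : I < K)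
    (H : ∀ s < L, ∀ s' < L, W.X s = I → W.Y s = K → W'.X s' = I → W'.Y s' = K →
      Sync W W' i k s s' I) {t t' : ℕ} (ht : t < L) (ht' : t' < L) (e1 : W'.X t' = W.X t)
    (e2 : W'.Y t' = W.Y t) {J : Fin n} (iJ : In i k J) (IJ : I < J) (JK : J < K)
    (c : (W.X t = I ∧ W.Y t = J) ∨ (W.X t = J ∧ W.Y t = K)) (h : W.pos t K < W.pos t I) :
    W'.pos t' K < W'.pos t' I := by
  obtain ⟨s, s1, s2, s3⟩ := (W.bef IK t ht.le).1 h
  obtain ⟨s', s1', s2', s3'⟩ := W.find W' hL (t := s) (by omega)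
  rw [s2] at s2'; rw [s3] at s3'
  have sy := H s (by omega) s' s1' s2 s3 s2' s3' J iJ
  have a1 := W.before s1.le ht
  have a2 := W.adj s (by omega)
  have a3 := W'.adj s' s1'
  have := W.ne s IJ.ne
  have := W.ne s JK.ne
  have := W'.ne s' IJ.ne
  have := W'.ne s' JK.ne
  have lt : s' < t' := by
    by_contra k
    rcases (not_lt.1 k).eq_or_lt with rfl | k
    · rcases c with c | c
      · exact JK.ne (c.2.symm.trans (e2.symm.trans s3'))
      · exact IJ.ne (s2'.symm.trans (e1.trans c.1))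
    have := W'.after k s1'.le
    rw [e1, e2] at this
    rw [s2, s3] at a2; rw [s2', s3'] at a3
    rcases c with c | c <;> rw [c.1, c.2] at a1 this <;> omega
  have := W'.after lt ht'.le
  rwa [s2', s3'] at this

lemma ag_step (hL : W.pos L = W'.pos L) (h1 : AG W W' (i + 1) k) (h2 : AG W W' i (k - 1))
    (ha : 0 < a) (ha1 : a < 1) {I K : Fin n} (hI : I.val = i) (hK : K.val = k) (hik : i < k)
    (hF : W.F a i k 0 I = W'.F a i k 0 I) : AG W W' i k := by
  have H : ∀ s < L, ∀ s' < L, W.X s = I → W.Y s = K → W'.X s' = I → W'.Y s' = K →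
      Sync W W' i k s s' I := fun s hs s' hs' a b c d =>
    sync_top hL h1 h2 ha ha1 hI hK hs hs' a b c d hF
  have H' : ∀ s < L, ∀ s' < L, W'.X s = I → W'.Y s = K → W.X s' = I → W.Y s' = K →
      Sync W' W i k s s' I := fun s hs s' hs' a b c d u hu => (H s' hs' s hs c d a b u hu).symm
  have IK : I < K := by rw [Fin.lt_def]; omega
  intro t ht s hs e1 e2 iX iY z iz
  have l := W.lt t ht
  have b := W.before le_rfl ht
  have b' := W'.before le_rfl hs
  rw [e1, e2] at b'
  by_cases z1 : z = W.X t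
  · rw [z1]; omega
  by_cases z2 : z = W.Y t
  · rw [z2]; omega
  by_cases c1 : In (i + 1) k (W.X t) ∧ In (i + 1) k z
  · exact h1 t ht s hs e1 e2 c1.1 ⟨by have := c1.1.1; rw [Fin.lt_def] at l; omega, iY.2⟩ z c1.2
  by_cases c2 : In i (k - 1) (W.Y t) ∧ In i (k - 1) z
  · exact h2 t ht s hs e1 e2 ⟨iX.1, by have := c2.1.2; rw [Fin.lt_def] at l; omega⟩ c2.1 z c2.2
  have q := W.side ht z1 z2
  have q' := W'.side hs (e1 ▸ z1) (e2 ▸ z2)
  rw [e1, e2] at q'
  have : (W.X t = I ∧ W.Y t = K) ∨ (W.X t = I ∧ z = K) ∨ (z = I ∧ W.Y t = K) := by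
    unfold In at *
    simp only [Fin.ext_iff, Fin.lt_def] at *
    omega
  rcases this with c | c | c
  · rw [c.1]; exact H t ht s hs c.1 c.2 (e1.trans c.1) (e2.trans c.2) z iz
  · have JK : W.Y t < K := by
      have := iY.2; rw [c.2, Fin.ext_iff] at z2; rw [Fin.lt_def]; omega
    rw [c.1] at l
    rw [c.1, c.2]
    exact ⟨trans_side hL IK H ht hs e1 e2 iY l JK (Or.inl ⟨c.1, rfl⟩),
      trans_side hL.symm IK H' hs ht e1.symm e2.symm iY l JK (Or.inl ⟨e1.trans c.1, e2⟩)⟩
  · have IJ : I < W.X t := by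
      have := iX.1; rw [c.1, Fin.ext_iff] at z1; rw [Fin.lt_def]; omega
    rw [c.2] at l
    have f1 := trans_side hL IK H ht hs e1 e2 iX IJ l (Or.inr ⟨rfl, c.2⟩)
    have f2 := trans_side hL.symm IK H' hs ht e1.symm e2.symm iX IJ l (Or.inr ⟨e1, e2.trans c.2⟩)
    have := W.ne t IK.ne
    have := W'.ne s IK.ne
    rw [q, q', c.1, c.2]; omega

theorem ag_all (hL : W.pos L = W'.pos L) (ha : 0 < a) (ha1 : a < 1)
    (hF : ∀ I K : Fin n, I < K → W.F a I K 0 I = W'.F a I K 0 I) (d : ℕ) :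
    ∀ i k, k = i + d → k < n → AG W W' i k := by
  induction d with
  | zero =>
    intro i k e _ t ht s hs _ _ iX iY
    have := W.lt t ht
    unfold In at *; rw [Fin.lt_def] at this; omega
  | succ d ih =>
    intro i k e hk
    exact ag_step (I := ⟨i, by omega⟩) (K := ⟨k, hk⟩) hL (ih _ _ (by omega) hk)
      (ih _ _ (by omega) (by omega)) ha ha1 rfl rfl (by omega)
      (hF ⟨i, by omega⟩ ⟨k, hk⟩ (by rw [Fin.lt_def]; simp only; omega))

end Pool.Agent.H.MP_4f027a_co
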