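import Mathlib
import Pool.Agent.H.MP_4f027a_co.B

namespace Pool.Agent.H.MP_4f027a_co

open Finset

variable {n L : ℕ} (W : WD n L)

def WD.M (t p : ℕ) : ℕ := ∑ z with W.pos t z < p, z.val

lemma WD.M_x {t : ℕ} (z : Fin n) : W.M t (W.pos t z + 1) = W.M t (W.pos t z) + z := by
  unfold WD.M
  have : ({u | W.pos t u < W.pos t z + 1} : Finset (Fin n)) =
      insert z ({u | W.pos t u < W.pos t z} : Finset (Fin n)) := by
    ext u; simp only [mem_insert, mem_filter, mem_univ, true_and]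
    by_cases c : u = z
    · simp [c]
    · have := W.ne t c; simp only [c, false_or]; omega
  rw [this, sum_insert (by simp), add_comm]

lemma WD.M_ne {t r : ℕ} (ht : t < L) (h : r ≠ W.pos t (W.X t) + 1) : W.M (t + 1) r = W.M t r := by
  unfold WD.M
  congr 1; ext u; simp only [mem_filter, mem_univ, true_and]
  have := W.adj t ht
  by_cases c1 : u = W.X t
  · rw [c1, W.sX t ht]; omega
  by_cases c2 : u = W.Y t
  · rw [c2, W.sY t ht]; omega
  rw [W.sZ t ht u c1 c2]

lemma WD.M_y {t : ℕ} (ht : t < L) :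
    W.M (t + 1) (W.pos t (W.X t) + 1) = W.M t (W.pos t (W.X t)) + W.Y t := by
  have := W.M_x (t := t + 1) (W.Y t)
  rwa [W.sY t ht, W.M_ne ht (r := W.pos t (W.X t)) (by omega)] at this

lemma WD.M_mono {s t : ℕ} (h : s ≤ t) (ht : t ≤ L) (r : ℕ) : W.M s r ≤ W.M t r := by
  induction t, h using Nat.le_induction with
  | base => rfl
  | succ t h ih =>
    refine (ih (by omega)).trans ?_
    by_cases c : r = W.pos t (W.X t) + 1
    · have := W.lt t ht
      rw [c, W.M_y ht, W.M_x, Fin.lt_def] at *; omega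
    · rw [W.M_ne ht c]

variable {W} {W' : WD n L}

lemma order (hc : ∀ t z, #{u | W.pos t u < W.pos t z} = W.pos t z)
    (hc' : ∀ t z, #{u | W'.pos t u < W'.pos t z} = W'.pos t z) (h : AG W W' 0 (n - 1))
    {t s : ℕ} (ht : t < L) (hs : s < L) (e1 : W'.X s = W.X t) (e2 : W'.Y s = W.Y t) :
    W'.pos s (W'.X s) = W.pos t (W.X t) ∧ W'.M s (W.pos t (W.X t)) = W.M t (W.pos t (W.X t)) := by
  have i : ∀ z : Fin n, In 0 (n - 1) z := fun z => ⟨by omega, by omega⟩
  have e : ({u | W.pos t u < W.pos t (W.X t)} : Finset (Fin n)) =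
      ({u | W'.pos s u < W'.pos s (W'.X s)} : Finset (Fin n)) := by
    ext u; simp only [mem_filter, mem_univ, true_and, e1]
    exact h t ht s hs e1 e2 (i _) (i _) u (i u)
  have e3 : W'.pos s (W'.X s) = W.pos t (W.X t) := by rw [← hc, ← hc', e]
  exact ⟨e3, by unfold WD.M; rw [e, e3]⟩

lemma order2 (hc : ∀ t z, #{u | W.pos t u < W.pos t z} = W.pos t z)
    (hc' : ∀ t z, #{u | W'.pos t u < W'.pos t z} = W'.pos t z) (h : AG W W' 0 (n - 1))
    {t s t2 s2 : ℕ} (ht : t < L) (e1 : W'.X s = W.X t) (e2 : W'.Y s = W.Y t)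
    (ht2 : t2 < L) (hs2 : s2 < L) (f1 : W'.X s2 = W.X t2) (f2 : W'.Y s2 = W.Y t2) (l : s < s2)
    (c1 : W.pos t (W.X t) ≤ W.pos t2 (W.X t2) + 1) (c2 : W.pos t2 (W.X t2) ≤ W.pos t (W.X t) + 1) :
    t < t2 := by
  have hs : s < L := by omega
  by_contra k
  rcases (not_lt.1 k).eq_or_lt with rfl | k
  · have := W'.uniq hs hs2 (e1.trans f1.symm) (e2.trans f2.symm); omega
  obtain ⟨a1, a2⟩ := order hc hc' h ht hs e1 e2
  obtain ⟨b1, b2⟩ := order hc hc' h ht2 hs2 f1 f2
  have x1 := W.M_x (t := t) (W.X t)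
  have x2 := W'.M_x (t := s2) (W'.X s2)
  have y1 := W'.M_y hs
  have y2 := W.M_y ht2
  have l1 := W.lt t ht
  have l2 := W.lt t2 ht2
  rw [b1, f1] at x2; rw [a1, e2] at y1
  have m1 := W'.M_mono (s := s + 1) l hs2.le
  have m2 := W'.M_mono l.le hs2.le
  have m3 := W.M_mono (s := t2 + 1) k ht.le
  have m4 := W.M_mono k.le ht.le
  rw [Fin.lt_def] at l1 l2
  generalize W.pos t (W.X t) = p at *
  generalize W.pos t2 (W.X t2) = r at *
  obtain rfl | rfl | rfl : p = r ∨ p = r + 1 ∨ r = p + 1 := by omega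
  · have := m1 (p + 1); have := m3 (p + 1); omega
  · have := m2 (r + 1); have := m3 (r + 1); omega
  · have := m1 (p + 1); have := m4 (p + 1); omega

section trace
variable {α : Type*} (C : α → α → Prop)

def Mv (A B : List α) : Prop := ∃ P S i j, C i j ∧ A = P ++ i :: j :: S ∧ B = P ++ j :: i :: S

lemma mv_cons (x : α) {A B : List α} (h : Relation.ReflTransGen (Mv C) A B) :
    Relation.ReflTransGen (Mv C) (x :: A) (x :: B) := by
  induction h with
  | refl => exact .refl
  | tail _ h ih =>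
    obtain ⟨P, S, i, j, c, e1, e2⟩ := h
    exact ih.tail ⟨x :: P, S, i, j, c, by rw [e1]; rfl, by rw [e2]; rfl⟩

lemma mv_front (x : α) (B2 : List α) : ∀ B1 : List α, (∀ y ∈ B1, C y x) →
    Relation.ReflTransGen (Mv C) (B1 ++ x :: B2) (x :: (B1 ++ B2))
  | [], _ => .refl
  | y :: B1, h => (mv_cons C y (mv_front x B2 B1 fun z hz => h z (by simp [hz]))).tail
      ⟨[], B1 ++ B2, y, x, h y (by simp), rfl, rfl⟩

lemma trace {β : Type*} [LinearOrder β] (f : β → α) : ∀ A B : List β, A.Pairwise (· < ·) →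
    A.Perm B → B.Pairwise (fun x y => C (f x) (f y) ∨ x < y) →
    Relation.ReflTransGen (Mv C) (B.map f) (A.map f)
  | [], B, _, h, _ => by rw [h.nil_eq]
  | x :: A, B, h1, h2, h3 => by
    obtain ⟨B1, B2, rfl⟩ := List.append_of_mem (h2.subset List.mem_cons_self)
    have p : A.Perm (B1 ++ B2) := (h2.trans List.perm_middle).cons_inv
    rw [List.pairwise_cons] at h1
    have h4 := List.pairwise_append.1 h3
    have := mv_front C (f x) (B2.map f) (B1.map f) (by
      intro y hy'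
      obtain ⟨y, hy, rfl⟩ := List.mem_map.1 hy'
      exact (h4.2.2 y hy x (by simp)).resolve_right
        (h1.1 y (p.symm.subset (by simp [hy]))).not_gt)
    rw [List.map_append, List.map_cons, List.map_cons]
    refine this.trans (mv_cons C _ ?_)
    rw [← List.map_append]
    exact trace f A _ h1.2 p (h3.sublist (by simp))

end trace

lemma prod_eq (hL : W.pos L = W'.pos L) (g : Fin n → Fin n → ℝ) :
    ∏ t ∈ range L, g (W.X t) (W.Y t) = ∏ t ∈ range L, g (W'.X t) (W'.Y t) := by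
  have k : ∀ W : WD n L, ∏ t ∈ range L, g (W.X t) (W.Y t) =
      ∏ x ∈ (range L).image (fun t => (W.X t, W.Y t)), g x.1 x.2 := fun W => by
    rw [prod_image]
    intro s hs t ht e
    simp only [coe_range, Set.mem_Iio, Prod.mk.injEq] at hs ht e
    exact W.uniq hs ht e.1 e.2
  have k2 : ∀ W W' : WD n L, W.pos L = W'.pos L → (range L).image (fun t => (W.X t, W.Y t)) ⊆
      (range L).image (fun t => (W'.X t, W'.Y t)) := fun W W' h x hx => by
    obtain ⟨t, ht, rfl⟩ := mem_image.1 hx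
    obtain ⟨s, hs, e1, e2⟩ := W.find W' h (mem_range.1 ht)
    exact mem_image.2 ⟨s, mem_range.2 hs, by rw [e1, e2]⟩
  rw [k, k, Subset.antisymm (k2 W W' hL) (k2 W' W hL.symm)]

end Pool.Agent.H.MP_4f027a_co
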