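import Mathlib

namespace Pool.Agent.H.MP_4f027a_co

open Finset Equiv

variable {m : ℕ}

/-- the simple transpositions of the symmetric group on `m + 1` points -/
def s (i : Fin m) : Perm (Fin (m + 1)) := swap i.castSucc i.succ

/-- the permutation `s_{i_1} ⋯ s_{i_L}` of a word -/
def wp (R : List (Fin m)) : Perm (Fin (m + 1)) := (R.map s).prod

/-- Coxeter length, the number of inversions -/
def len (w : Perm (Fin (m + 1))) : ℕ :=
  #{x : Fin (m + 1) × Fin (m + 1) | x.1 < x.2 ∧ w x.2 < w x.1}

/-- reduced words -/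
def Reduced (R : List (Fin m)) : Prop := len (wp R) = R.length

/-- the basis element `T_w` of the Hecke algebra, as a coefficient vector -/
noncomputable def T (w : Perm (Fin (m + 1))) : Perm (Fin (m + 1)) → ℝ := Pi.single w 1

/-- right multiplication by `T_i` in the Hecke algebra: `T_w T_i = T_{w s_i}` if the length goes up,
and `T_w T_i = (q - 1) T_w + q T_{w s_i}` otherwise -/
noncomputable def mulT (q : ℝ) (i : Fin m) (c : Perm (Fin (m + 1)) → ℝ) : Perm (Fin (m + 1)) → ℝ :=
  ∑ w, c w • (if len w < len (w * s i) then T (w * s i) else (q - 1) • T w + q • T (w * s i))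

/-- the coefficients `c_{R,w}(q)` of `(1 + T_{i_1}) ⋯ (1 + T_{i_L})` -/
noncomputable def coef (q : ℝ) (R : List (Fin m)) : Perm (Fin (m + 1)) → ℝ :=
  R.foldl (fun c i => c + mulT q i c) (T 1)

/-- the distribution `P_{R,q}` -/
noncomputable def P (q : ℝ) (R : List (Fin m)) (w : Perm (Fin (m + 1))) : ℝ :=
  q ^ len w * coef q R w / (1 + q) ^ R.length

/-- a commutation move -/
def CommMove (A B : List (Fin m)) : Prop :=
  ∃ (U V : List (Fin m)) (i j : Fin m), (i.val + 1 < j.val ∨ j.val + 1 < i.val) ∧
    A = U ++ i :: j :: V ∧ B = U ++ j :: i :: V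

end Pool.Agent.H.MP_4f027a_co
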