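import Mathlib
import Pool.Agent.H.MP_4f027a_co.C
import Pool.Agent.H.MP_4f027a_co.Defs

namespace Pool.Agent.H.MP_4f027a_co

open Finset Equiv

variable {m : ℕ}

lemma ss (i : Fin m) (w : Perm (Fin (m + 1))) : w * s i * s i = w := by
  rw [mul_assoc, s, swap_mul_self, mul_one]

lemma s_val (i : Fin m) (a : Fin (m + 1)) :
    (s i a).val = if a.val = i then i.val + 1 else if a.val = i + 1 then i.val else a.val := by
  rw [s, swap_apply_def]
  simp only [Fin.ext_iff, Fin.val_castSucc, Fin.val_succ]
  split_ifs <;> simp

lemma s_c (i : Fin m) : s i i.castSucc = i.succ := swap_apply_left _ _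
lemma s_s (i : Fin m) : s i i.succ = i.castSucc := swap_apply_right _ _

lemma len_up {w : Perm (Fin (m + 1))} {i : Fin m} (h : w i.castSucc < w i.succ) :
    len (w * s i) = len w + 1 := by
  unfold len
  rw [← card_insert_of_notMem (a := (i.succ, i.castSucc)) (by simp [i.castSucc_lt_succ.le])]
  refine card_equiv ((s i).prodCongr (s i)) ?_
  rintro ⟨a, b⟩
  obtain ⟨a, rfl⟩ := (s i).surjective a
  obtain ⟨b, rfl⟩ := (s i).surjective b
  have e : ∀ a, s i (s i a) = a := fun a => swap_apply_self _ _ _
  rw [mem_filter, mem_insert, mem_filter]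
  simp only [mem_univ, true_and, prodCongr_apply, Prod.map, Perm.mul_apply, e, Prod.mk.injEq]
  by_cases c : a = i.succ ∧ b = i.castSucc
  · simp [c.1, c.2, s_c, s_s, h]
  by_cases c' : a = i.castSucc ∧ b = i.succ
  · simp [c'.1, c'.2, s_c, s_s, h.le, i.castSucc_lt_succ.le, i.castSucc_lt_succ.ne]
  simp only [c, false_or]
  refine and_congr_left fun _ => ?_
  simp only [Fin.ext_iff, Fin.lt_def, s_val, Fin.val_castSucc, Fin.val_succ] at *
  split_ifs <;> omega

lemma len_dn {w : Perm (Fin (m + 1))} {i : Fin m} (h : w i.succ < w i.castSucc) :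
    len (w * s i) + 1 = len w := by
  rw [← len_up (by rwa [Perm.mul_apply, Perm.mul_apply, s_c, s_s]), ss]

lemma asc_of {w : Perm (Fin (m + 1))} {i : Fin m} (h : ¬ w i.succ < w i.castSucc) :
    w i.castSucc < w i.succ :=
  lt_of_le_of_ne (not_lt.1 h) fun e => i.castSucc_lt_succ.ne (w.injective e)

lemma mulT_apply (q : ℝ) (i : Fin m) (c : Perm (Fin (m + 1)) → ℝ) (u : Perm (Fin (m + 1))) :
    mulT q i c u = if u i.succ < u i.castSucc then c (u * s i) + (q - 1) * c u
      else q * c (u * s i) := by
  have : ∀ w, (c w • (if len w < len (w * s i) then T (w * s i)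
      else (q - 1) • T w + q • T (w * s i))) u =
      (if u * s i = w then c w * (if len w < len (w * s i) then 1 else q) else 0) +
      (if u = w then c w * (if len w < len (w * s i) then 0 else q - 1) else 0) := by
    intro w
    have e : u = w * s i ↔ u * s i = w := ⟨fun h => by rw [h, ss], fun h => by rw [← h, ss]⟩
    by_cases h : len w < len (w * s i) <;>
      simp only [h, if_true, if_false, T, Pi.smul_apply, Pi.add_apply, Pi.single_apply, e,
        smul_eq_mul] <;> split_ifs <;> ring
  rw [mulT, Finset.sum_apply, sum_congr rfl fun w _ => this w, sum_add_distrib, sum_ite_eq,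
    sum_ite_eq, ss]
  by_cases h : u i.succ < u i.castSucc
  · have := len_dn h
    rw [if_pos h, if_pos (mem_univ _), if_pos (mem_univ _), if_pos (by omega), if_neg (by omega)]
    ring
  · have := len_up (asc_of h)
    rw [if_neg h, if_pos (mem_univ _), if_pos (mem_univ _), if_neg (by omega), if_pos (by omega)]
    ring

noncomputable def D (q : ℝ) (R : List (Fin m)) (u : Perm (Fin (m + 1))) : ℝ :=
  q ^ len u * coef q R u

lemma D_snoc (q : ℝ) (R : List (Fin m)) (i : Fin m) (u : Perm (Fin (m + 1))) :
    D q (R ++ [i]) u = (if u i.succ < u i.castSucc then q else 1) * (D q R u + D q R (u * s i)) := by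
  unfold D
  rw [coef, List.foldl_append, ← coef, List.foldl_cons, List.foldl_nil, Pi.add_apply, mulT_apply]
  split_ifs with h
  · rw [← len_dn h]; ring
  · rw [len_up (asc_of h)]; ring

lemma len_one : len (1 : Perm (Fin (m + 1))) = 0 := by
  unfold len
  rw [card_eq_zero, filter_eq_empty_iff]
  rintro x - ⟨a, b⟩
  exact lt_asymm a b

lemma D_nil (q : ℝ) (u : Perm (Fin (m + 1))) : D q [] u = if u = 1 then 1 else 0 := by
  unfold D coef T
  split_ifs with h <;> simp [h, len_one]

lemma wp_snoc (R : List (Fin m)) (i : Fin m) : wp (R ++ [i]) = wp R * s i := by simp [wp]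

lemma len_le (A B : List (Fin m)) : len (wp (A ++ B)) ≤ len (wp A) + B.length := by
  induction B using List.reverseRecOn with
  | nil => simp
  | append_singleton B i ih =>
    rw [← List.append_assoc, wp_snoc, List.length_append, List.length_singleton]
    by_cases h : wp (A ++ B) i.succ < wp (A ++ B) i.castSucc
    · have := len_dn h; omega
    · have := len_up (asc_of h); omega

lemma wp_take (R : List (Fin m)) {t : ℕ} (h : t < R.length) :
    wp (R.take (t + 1)) = wp (R.take t) * s R[t] := by
  rw [List.take_succ_eq_append_getElem h, wp_snoc]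

lemma asc {R : List (Fin m)} (hr : Reduced R) {t : ℕ} (h : t < R.length) :
    wp (R.take t) R[t].castSucc < wp (R.take t) R[t].succ := by
  refine asc_of fun c => ?_
  have a1 := len_dn c
  have a2 := len_le (R.take (t + 1)) (R.drop (t + 1))
  have a3 := len_le [] (R.take t)
  rw [List.take_append_drop, wp_take R h, List.length_drop, hr] at a2
  rw [List.nil_append, show wp ([] : List (Fin m)) = 1 from rfl, len_one, List.length_take] at a3
  omega

def mk (R : List (Fin m)) {L : ℕ} (hL : R.length = L) (hr : Reduced R) : WD (m + 1) L where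
  X t := if h : t < R.length then wp (R.take t) R[t].castSucc else 0
  Y t := if h : t < R.length then wp (R.take t) R[t].succ else 0
  pos t z := ((wp (R.take t)).symm z).val
  inj t u v h := (wp (R.take t)).symm.injective (Fin.ext h)
  zero u := rfl
  lt t h := by subst hL; simp only [dif_pos h]; exact asc hr h
  adj t h := by subst hL; simp [dif_pos h]
  sX t h := by
    subst hL; simp only [dif_pos h, wp_take R h, symm_apply_apply]
    congr 1; rw [symm_apply_eq, Perm.mul_apply, s_s]
  sY t h := by
    subst hL; simp only [dif_pos h, wp_take R h, symm_apply_apply]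
    congr 1; rw [symm_apply_eq, Perm.mul_apply, s_c]
  sZ t h z h1 h2 := by
    subst hL; simp only [dif_pos h, wp_take R h] at *
    congr 1; rw [symm_apply_eq, Perm.mul_apply, s, swap_apply_of_ne_of_ne, apply_symm_apply]
    · rwa [ne_eq, symm_apply_eq]
    · rwa [ne_eq, symm_apply_eq]

def ind (v : Perm (Fin (m + 1))) (b r : ℕ) : ℕ :=
  if h : r < m + 1 then if (v ⟨r, h⟩).val ≤ b then 1 else 0 else 0

def cnt (v : Perm (Fin (m + 1))) (b p : ℕ) : ℕ := ∑ r ∈ range p, ind v b r

lemma ind_s (v : Perm (Fin (m + 1))) (i : Fin m) (b r : ℕ) : ind (v * s i) b r =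
    if r = i then ind v b (i + 1) else if r = i + 1 then ind v b i else ind v b r := by
  have := i.2
  by_cases h : r < m + 1
  · have e : ind (v * s i) b r = ind v b (s i ⟨r, h⟩) := by
      unfold ind; rw [dif_pos h, dif_pos (s i ⟨r, h⟩).2]; rfl
    rw [e, s_val]
    split_ifs <;> rfl
  · rw [if_neg (by omega), if_neg (by omega)]
    unfold ind; rw [dif_neg h, dif_neg h]

lemma cnt_succ (v : Perm (Fin (m + 1))) (b p : ℕ) : cnt v b (p + 1) = cnt v b p + ind v b p :=
  sum_range_succ _ _

lemma cnt_s (v : Perm (Fin (m + 1))) (i : Fin m) (b p : ℕ) : cnt (v * s i) b p =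
    if p = i + 1 then cnt v b i + ind v b (i + 1) else cnt v b p := by
  induction p with
  | zero => simp [cnt]
  | succ p ih =>
    rw [cnt_succ, ih, ind_s, cnt_succ]
    by_cases h1 : p = i
    · subst h1; simp
    by_cases h2 : p = i + 1
    · subst h2; simp [cnt_succ]; omega
    simp [h1, h2]

lemma ind_c (v : Perm (Fin (m + 1))) (i : Fin m) (b : ℕ) :
    ind v b i = if (v i.castSucc).val ≤ b then 1 else 0 := dif_pos (by omega)

lemma ind_u (v : Perm (Fin (m + 1))) (i : Fin m) (b : ℕ) :
    ind v b (i + 1) = if (v i.succ).val ≤ b then 1 else 0 := dif_pos (by omega)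

lemma bruhat (q : ℝ) {R : List (Fin m)} (hr : Reduced R) : ∀ t ≤ R.length, ∀ u,
    D q (R.take t) u ≠ 0 → ∀ b p, cnt (wp (R.take t)) b p ≤ cnt u b p := by
  intro t
  induction t with
  | zero =>
    intro _ u h b p
    rw [List.take_zero, D_nil] at h
    rw [show u = 1 by by_contra c; exact h (if_neg c)]; rfl
  | succ t ih =>
    intro ht u h b p
    rw [List.take_succ_eq_append_getElem ht, D_snoc] at h
    have a := asc hr ht
    rw [wp_take R ht, cnt_s]
    generalize R[t] = i at *
    generalize wp (R.take t) = w at *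
    have a1 := ind_c w i b
    have a2 := ind_u w i b
    have a3 := cnt_succ w b i
    rw [Fin.lt_def] at a
    by_cases c : D q (R.take t) u = 0
    · have k := ih (by omega) (u * s i) (fun e => h (by rw [c, e]; simp)) b
      have k0 := k p
      have k1 := k i
      have k2 := k (i + 1 + 1)
      rw [cnt_s] at k0 k1 k2
      have a4 := cnt_succ w b (i + 1)
      have a5 := cnt_succ u b (i + 1)
      have a6 := cnt_succ u b i
      have a7 := ind_u u i b
      rw [if_neg (by omega)] at k1 k2
      by_cases e : p = i + 1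
      · rw [if_pos e, e]; split_ifs at * <;> omega
      · rwa [if_neg e] at *
    · have k := ih (by omega) u c b p
      by_cases e : p = i + 1
      · rw [if_pos e]; subst e; split_ifs at a1 a2 <;> omega
      · rwa [if_neg e]

end Pool.Agent.H.MP_4f027a_co
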