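import Mathlib
import Pool.Agent.H.MP_4f027a_co.E

namespace Pool.Agent.H.MP_4f027a_co

open Finset Equiv

variable {m : ℕ}

open Classical in
noncomputable def S (m i k : ℕ) : Finset (Perm (Fin (m + 1))) := {g | ∀ z, ¬ In i k z → g z = z}

variable {i k : ℕ}

lemma mem_S {g : Perm (Fin (m + 1))} : g ∈ S m i k ↔ ∀ z, ¬ In i k z → g z = z := by simp [S]

lemma S_in {g : Perm (Fin (m + 1))} (h : g ∈ S m i k) {z : Fin (m + 1)} (hz : In i k z) :
    In i k (g z) := by
  by_contra c
  exact c ((g.injective (mem_S.1 h _ c)).symm ▸ hz)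

lemma S_le {g : Perm (Fin (m + 1))} (h : g ∈ S m i k) {b : ℕ} (hb : b < i ∨ k ≤ b)
    (z : Fin (m + 1)) : (g z).val ≤ b ↔ z.val ≤ b := by
  by_cases c : In i k z
  · have := S_in h c; unfold In at *; omega
  · rw [mem_S.1 h z c]

lemma cnt_S {g : Perm (Fin (m + 1))} (h : g ∈ S m i k) {b : ℕ} (hb : b < i ∨ k ≤ b)
    (v : Perm (Fin (m + 1))) (p : ℕ) : cnt (g * v) b p = cnt v b p := by
  refine sum_congr rfl fun r _ => ?_
  unfold ind
  simp only [Perm.mul_apply, S_le h hb]

variable {R : List (Fin m)} {L : ℕ} (hL : R.length = L) (hr : Reduced R)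

noncomputable def Phi (q : ℝ) (i k : ℕ) (I : Fin (m + 1)) (t : ℕ) : ℝ :=
  ∑ g ∈ S m i k, D q (R.take t) (g * wp (R.take t)) * (mk R hL hr).F (1 / (1 + q)) i k t (g.symm I)

open Classical in
lemma Phi_succ {q : ℝ} (hq : 0 < q) {I : Fin (m + 1)} (hI : I.val = i) {t : ℕ} (ht : t < L) :
    Phi hL hr q i k I (t + 1) = (if In i k ((mk R hL hr).X t) ∧ In i k ((mk R hL hr).Y t)
      then 1 + q else q) * Phi hL hr q i k I t := by
  have ht' : t < R.length := by omega
  have hb := bruhat q hr t ht'.le
  have ha := asc hr ht'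
  have hX : (mk R hL hr).X t = wp (R.take t) R[t].castSucc := dif_pos ht'
  have hY : (mk R hL hr).Y t = wp (R.take t) R[t].succ := dif_pos ht'
  have fa := @WD.F_act _ _ (mk R hL hr) (1 / (1 + q)) i k t ht
  have fs := @WD.F_skip _ _ (mk R hL hr) (1 / (1 + q)) i k t ht
  unfold WD.Act at fa fs
  unfold Phi
  rw [wp_take R ht', List.take_succ_eq_append_getElem ht', mul_sum]
  simp only [D_snoc, ← mul_assoc, ss, Perm.mul_apply, s_c, s_s]
  rw [hX, hY] at *
  generalize R[t] = p at *
  generalize wp (R.take t) = w at *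
  generalize D q (R.take t) = d at *
  generalize (mk R hL hr).F (1 / (1 + q)) i k = f at *
  by_cases c : In i k (w p.castSucc) ∧ In i k (w p.succ)
  · have e : ∀ g, g * w * s p = g * swap (w p.castSucc) (w p.succ) * w := fun g => by
      rw [mul_assoc, s, mul_swap_eq_swap_mul, mul_assoc]
    simp only [e, if_pos c]
    generalize w p.castSucc = x at *
    generalize w p.succ = y at *
    have e2 : ∑ g ∈ S m i k, (if g x < g y then q else 1) * d (g * swap x y * w) *
        f (t + 1) (g.symm I) = ∑ g ∈ S m i k, (if g y < g x then q else 1) * d (g * w) *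
        f (t + 1) (swap x y (g.symm I)) := by
      refine sum_equiv (Equiv.mulRight (swap x y)) (fun g => ?_) fun g _ => ?_
      · simp only [mem_S, coe_mulRight, Perm.mul_apply]
        refine forall₂_congr fun z hz => ?_
        rw [swap_apply_of_ne_of_ne (by rintro rfl; exact hz c.1) (by rintro rfl; exact hz c.2)]
      · simp only [coe_mulRight, Perm.mul_apply, swap_apply_left, swap_apply_right]
        congr 2
        rw [← symm_apply_eq, symm_swap, eq_symm_apply, Perm.mul_apply, swap_apply_self,
          apply_symm_apply]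
    simp only [mul_add, add_mul, sum_add_distrib]
    rw [e2, ← sum_add_distrib, ← sum_add_distrib]
    refine sum_congr rfl fun g hg => ?_
    have n : g x ≠ g y := fun e => ha.ne (g.injective e)
    have l1 := (S_in hg c.1).1
    have l2 := (S_in hg c.2).1
    have : 1 + q ≠ 0 := by positivity
    by_cases z1 : g.symm I = x
    · have l : g x < g y := lt_of_le_of_ne (by
        rw [← z1, apply_symm_apply, Fin.le_def]; omega) n
      rw [fa ⟨c.1, c.2, Or.inl z1⟩, z1, swap_apply_left, if_pos l, if_neg l.not_gt]
      field_simp; ring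
    by_cases z2 : g.symm I = y
    · have l : g y < g x := lt_of_le_of_ne (by
        rw [← z2, apply_symm_apply, Fin.le_def]; omega) n.symm
      rw [fa ⟨c.1, c.2, Or.inr z2⟩, z2, swap_apply_right, if_pos l, if_neg l.not_gt]
      field_simp; ring
    rw [fs (fun e => e.2.2.elim z1 z2), swap_apply_of_ne_of_ne z1 z2]
    rcases lt_or_gt_of_ne n with l | l <;> rw [if_pos l, if_neg l.not_gt] <;> ring
  · refine sum_congr rfl fun g hg => ?_
    obtain ⟨b, b1, b2, b3⟩ : ∃ b, (b < i ∨ k ≤ b) ∧ (w p.castSucc).val ≤ b ∧ b < (w p.succ).val := by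
      rw [Fin.lt_def] at ha
      by_cases c1 : In i k (w p.castSucc)
      · exact ⟨k, by unfold In at *; omega⟩
      · exact ⟨w p.castSucc, by unfold In at *; omega⟩
    have l : g (w p.castSucc) < g (w p.succ) := by
      have := S_le hg b1 (w p.castSucc); have := S_le hg b1 (w p.succ); rw [Fin.lt_def]; omega
    have z : d (g * w * s p) = 0 := by
      by_contra e
      have := hb _ e b (p + 1)
      rw [mul_assoc, cnt_S hg b1, cnt_s, if_pos rfl, cnt_succ, ind_c, ind_u, if_pos b2,
        if_neg (by omega)] at this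
      omega
    rw [if_pos l, z, if_neg c, fs (fun e => c ⟨e.1, e.2.1⟩)]; ring

lemma Phi_zero (q : ℝ) (I : Fin (m + 1)) :
    Phi hL hr q i k I 0 = (mk R hL hr).F (1 / (1 + q)) i k 0 I := by
  unfold Phi
  rw [sum_eq_single 1 (fun g _ n => by
    rw [List.take_zero, D_nil, if_neg (by simpa [wp] using n), zero_mul])
    fun h => (h (mem_S.2 fun _ _ => rfl)).elim]
  simp [D_nil, wp]
  rfl

open Classical in
lemma Phi_eq {q : ℝ} (hq : 0 < q) {I : Fin (m + 1)} (hI : I.val = i) : ∀ t ≤ L,
    Phi hL hr q i k I t = (∏ r ∈ range t, if In i k ((mk R hL hr).X r) ∧ In i k ((mk R hL hr).Y r)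
      then 1 + q else q) * (mk R hL hr).F (1 / (1 + q)) i k 0 I := by
  intro t
  induction t with
  | zero => intro _; simp [Phi_zero]
  | succ t ih => intro h; rw [Phi_succ hL hr hq hI h, ih (by omega), prod_range_succ]; ring

lemma pos_card (t : ℕ) (z : Fin (m + 1)) :
    #{u | (mk R hL hr).pos t u < (mk R hL hr).pos t z} = (mk R hL hr).pos t z := by
  show _ = ((wp (R.take t)).symm z).val
  rw [← Fin.card_Iio]
  exact card_equiv (wp (R.take t)).symm fun u => by
    rw [mem_filter, mem_Iio, Fin.lt_def]; simp [mk]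

lemma pos_X {t : ℕ} (ht : t < R.length) : (mk R hL hr).pos t ((mk R hL hr).X t) = R[t] := by
  simp [mk, ht]

theorem main {q : ℝ} (hq : 0 < q) {R R' : List (Fin m)} (hr : Reduced R) (hr' : Reduced R')
    (hw : wp R = wp R') (hP : ∀ w, P q R w = P q R' w) : Relation.ReflTransGen CommMove R' R := by
  have hl : R'.length = R.length := by rw [← hr, ← hr', hw]
  have hp : (mk R rfl hr).pos R.length = (mk R' hl hr').pos R.length := by
    ext z; simp only [mk]; rw [List.take_length, ← hl, List.take_length, hw]
  have hD : D q R = D q R' := by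
    ext w
    have := hP w
    unfold P at this
    rwa [hl, div_left_inj' (by positivity)] at this
  have ag := ag_all hp (a := 1 / (1 + q)) (by positivity) (by rw [div_lt_one] <;> linarith)
    (fun I K _ => by
      classical
      have a1 := Phi_eq (k := K) rfl hr hq (I := I) rfl _ le_rfl
      have a2 := Phi_eq (k := K) hl hr' hq (I := I) rfl _ le_rfl
      have a3 : Phi rfl hr q I K I R.length = Phi hl hr' q I K I R.length := by
        unfold Phi
        simp only [WD.F_end]
        rw [List.take_length, ← hl, List.take_length, hw, hD]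
      rw [a1, a2, prod_eq hp fun x y => if In I K x ∧ In I K y then 1 + q else q] at a3
      exact mul_left_cancel₀ (prod_pos fun _ _ => by split_ifs <;> positivity).ne' a3)
    m 0 m (by omega) (by omega)
  choose! σ h1 h2 h3 using fun t => (mk R' hl hr').find (mk R rfl hr) hp.symm (t := t)
  rcases eq_or_ne R [] with rfl | hne
  · rw [List.length_eq_zero_iff.1 hl]
  let f : ℕ → Fin m := fun t => R.getD t (R.head hne)
  have hf : ∀ t (h : t < R.length), f t = R[t] := fun t h => List.getD_eq_getElem _ _ h
  have e1 : R = (List.range R.length).map f := by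
    refine List.ext_getElem (by simp) fun t a b => ?_
    simp only [List.getElem_map, List.getElem_range, hf t a]
  have e2 : R' = ((List.range R.length).map σ).map f := by
    refine List.ext_getElem (by simp [hl]) fun t a b => ?_
    have a' : t < R.length := by omega
    simp only [List.getElem_map, List.getElem_range, hf _ (h1 t a')]
    have := (order (pos_card rfl hr) (pos_card hl hr') ag (h1 t a') a' (h2 t a').symm
      (h3 t a').symm).1
    rw [pos_X _ _ a, pos_X _ _ (h1 t a')] at this
    exact Fin.ext this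
  have inj : ∀ s < R.length, ∀ t < R.length, σ s = σ t → s = t := fun s hs t ht e =>
    (mk R' hl hr').uniq hs ht (by rw [← h2 s hs, ← h2 t ht, e]) (by rw [← h3 s hs, ← h3 t ht, e])
  have nd : ((List.range R.length).map σ).Nodup :=
    List.nodup_range.map_on fun s hs t ht => inj s (by simpa using hs) t (by simpa using ht)
  have := trace (fun i j : Fin m => i.val + 1 < j.val ∨ j.val + 1 < i.val) f (List.range R.length)
    ((List.range R.length).map σ) List.pairwise_lt_range
    ((List.subperm_of_subset nd (by
      intro x hx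
      obtain ⟨t, ht, rfl⟩ := List.mem_map.1 hx
      simpa using h1 t (by simpa using ht))).perm_of_length_le (by simp)).symm (by
      rw [List.pairwise_map]
      refine List.pairwise_lt_range.imp_of_mem fun {s t} hs ht l => ?_
      rw [List.mem_range] at hs ht
      rw [hf _ (h1 s hs), hf _ (h1 t ht), or_iff_not_imp_left]
      intro c
      refine order2 (pos_card rfl hr) (pos_card hl hr') ag (h1 s hs) (h2 s hs).symm (h3 s hs).symm
        (h1 t ht) ht (h2 t ht).symm (h3 t ht).symm l ?_ ?_ <;>
        rw [pos_X _ _ (h1 s hs), pos_X _ _ (h1 t ht)] <;> omega)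
  rwa [← e1, ← e2] at this

end Pool.Agent.H.MP_4f027a_co
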